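import Pool.Agent.R804.TU.Final

/-!
# The minimal Khovanov Laplacian gap of the twisted unknots `TU_n`

It is attained in bidegree `(0, 3 - n)` and equals `2 - 2 cos (π / (n + 2))`.
-/

set_option autoImplicit false

namespace Pool.Agent.Results.MP_ba01d8_gt.MinimalGap

open Pool.Agent.R804.TU

/-- For every `n ≥ 1`: every nonzero block `L_{(k, j)}` of the Khovanov Laplacian of `TU_n` has a
gap, the block `L_{(0, 3 - n)}` is nonzero and its gap is `2 - 2 cos (π / (n + 2))`, and this is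
the minimum of the gaps of the nonzero blocks. -/
theorem result (n : ℕ) (hn : 1 ≤ n) :
    (∀ (k : ℕ) (j : ℤ), lapBlock n k j ≠ 0 → ∃ g, IsGap (lapBlock n k j) g) ∧
    lapBlock n 0 (3 - n) ≠ 0 ∧
    IsGap (lapBlock n 0 (3 - n)) (2 - 2 * Real.cos (Real.pi / (n + 2))) ∧
    IsLeast {g : ℝ | ∃ (k : ℕ) (j : ℤ), lapBlock n k j ≠ 0 ∧ IsGap (lapBlock n k j) g}
      (2 - 2 * Real.cos (Real.pi / (n + 2))) := by
  have h := isGap_main hn
  refine ⟨fun k j h0 => exists_isGap _ (lapBlock_symm k j) h0, ne_zero_of_isGap _ _ h, h,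
    ⟨0, 3 - n, ne_zero_of_isGap _ _ h, h⟩, ?_⟩
  rintro g ⟨k, j, _, ⟨hg, x, hx, hxg⟩, _⟩
  exact block_ge k j g hg x hx hxg

end Pool.Agent.Results.MP_ba01d8_gt.MinimalGap
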